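import Pool.Agent.Helper38.XF.Tools

/-!
# RAT: substitution in rational functions
-/

set_option autoImplicit false

namespace Pool.Agent.Helper78.XF.RAT

open Polynomial Pool.Agent.Helper38.XF

variable {L : Type} [Field L] {O : ValuationSubring L}

theorem near_iff {e x y : L} (he : e ≠ 0) :
    Near O e x y ↔ O.valuation (x - y) ≤ O.valuation e := by
  constructor
  · rintro ⟨z, hz, h⟩
    rw [h, map_mul]
    have := (O.valuation_le_one_iff z).2 hz
    exact mul_le_of_le_one_right' this
  · intro h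
    refine ⟨(x - y) / e, ?_, by field_simp⟩
    rw [← O.valuation_le_one_iff, map_div₀]
    have he' : O.valuation e ≠ 0 := (Valuation.ne_zero_iff _).2 he
    exact div_le_one_of_le₀ h zero_le'

theorem exists_small (a : L) {e : L} (he : e ≠ 0) :
    ∃ e' : L, e' ≠ 0 ∧ O.valuation e' ≤ 1 ∧ O.valuation e' ≤ O.valuation e ∧
      O.valuation e' * O.valuation a ≤ O.valuation e := by
  obtain ⟨e1, h1, h2, h3⟩ : ∃ e1 : L, e1 ≠ 0 ∧ O.valuation e1 ≤ 1 ∧
      O.valuation e1 ≤ O.valuation e := by
    rcases le_total (O.valuation e) 1 with h | h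
    · exact ⟨e, he, h, le_rfl⟩
    · exact ⟨1, one_ne_zero, by simp, by simpa using h⟩
  rcases le_total (O.valuation a) 1 with h | h
  · exact ⟨e1, h1, h2, h3, (mul_le_of_le_one_right' h).trans h3⟩
  · have ha : a ≠ 0 := by
      rintro rfl
      simp at h
    have ha' : O.valuation a ≠ 0 := (Valuation.ne_zero_iff _).2 ha
    have h4 : O.valuation (e1 / a) * O.valuation a = O.valuation e1 := by
      rw [← map_mul, div_mul_cancel₀ _ ha]
    have h5 : O.valuation (e1 / a) ≤ O.valuation e1 := by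
      rw [← h4]
      exact le_mul_of_one_le_right' h
    exact ⟨e1 / a, div_ne_zero h1 ha, h5.trans h2, h5.trans h3, h4.le.trans h3⟩

/-- continuity at `s` of the substitution in `c` -/
def Cont (O : ValuationSubring L) {k : Subfield L} (φ : RatFunc k →ₐ[k] L) (c : RatFunc k) :
    Prop :=
  ∀ e : L, e ≠ 0 → ∃ δ : L, δ ≠ 0 ∧ ∀ (u : L) (ψ : RatFunc k →ₐ[k] L), ψ RatFunc.X = u →
    Near O δ u (φ RatFunc.X) → Near O e (ψ c) (φ c)

variable {k : Subfield L} {φ : RatFunc k →ₐ[k] L}

theorem common2 {a b : L} (ha : a ≠ 0) (hb : b ≠ 0) :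
    ∃ δ : L, δ ≠ 0 ∧ ∀ x y, Near O δ x y → Near O a x y ∧ Near O b x y := by
  rcases dvd_total (O := O) ha hb with h | h
  · exact ⟨b, hb, fun x y hxy => ⟨hxy.mono h, hxy⟩⟩
  · exact ⟨a, ha, fun x y hxy => ⟨hxy, hxy.mono h⟩⟩

theorem Cont.add {c d : RatFunc k} (hc : Cont O φ c) (hd : Cont O φ d) : Cont O φ (c + d) := by
  intro e he
  obtain ⟨a, ha, h1⟩ := hc e he
  obtain ⟨b, hb, h2⟩ := hd e he
  obtain ⟨δ, hδ, h3⟩ := common2 (O := O) ha hb
  refine ⟨δ, hδ, fun u ψ hu hn => ?_⟩
  rw [map_add, map_add]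
  exact (h1 u ψ hu (h3 _ _ hn).1).add (h2 u ψ hu (h3 _ _ hn).2)

theorem Cont.mul {c d : RatFunc k} (hc : Cont O φ c) (hd : Cont O φ d) : Cont O φ (c * d) := by
  intro e he
  obtain ⟨e1, he1, h11, h12, h13⟩ := exists_small (O := O) (φ d) he
  obtain ⟨e2, he2, h21, h22, h23⟩ := exists_small (O := O) (φ c) he
  obtain ⟨a, ha, h1⟩ := hc e1 he1
  obtain ⟨b, hb, h2⟩ := hd e2 he2
  obtain ⟨δ, hδ, h3⟩ := common2 (O := O) ha hb
  refine ⟨δ, hδ, fun u ψ hu hn => ?_⟩
  have hA := (near_iff he1).1 (h1 u ψ hu (h3 _ _ hn).1)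
  have hB := (near_iff he2).1 (h2 u ψ hu (h3 _ _ hn).2)
  rw [near_iff he, map_mul, map_mul]
  have e3 : ψ c * ψ d - φ c * φ d =
      (ψ c - φ c) * (ψ d - φ d) + ((ψ c - φ c) * φ d + (ψ d - φ d) * φ c) := by ring
  rw [e3]
  refine Valuation.map_add_le _ ?_ (Valuation.map_add_le _ ?_ ?_)
  · rw [map_mul]
    calc _ ≤ O.valuation e1 * O.valuation e2 := mul_le_mul' hA hB
      _ ≤ O.valuation e1 := mul_le_of_le_one_right' h21
      _ ≤ _ := h12
  · rw [map_mul]
    exact (mul_le_mul' hA le_rfl).trans h13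
  · rw [map_mul]
    exact (mul_le_mul' hB le_rfl).trans h23

theorem Cont.inv {c : RatFunc k} (hc : Cont O φ c) (hc0 : c ≠ 0) : Cont O φ c⁻¹ := by
  intro e he
  by_cases hO : ∀ x : L, x ∈ O
  · refine ⟨1, one_ne_zero, fun u ψ _ _ => ⟨(ψ c⁻¹ - φ c⁻¹) / e, hO _, by field_simp⟩⟩
  push Not at hO
  obtain ⟨x, hx⟩ := hO
  have hx1 : 1 < O.valuation x := by
    rw [← not_le, O.valuation_le_one_iff]
    exact hx
  have hx0 : x ≠ 0 := by
    rintro rfl
    exact hx O.zero_mem
  have hφ0 : φ c ≠ 0 := by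
    intro h
    exact hc0 ((map_eq_zero φ).1 h)
  have hVφ : 0 < O.valuation (φ c) := zero_lt_iff.2 ((Valuation.ne_zero_iff _).2 hφ0)
  have hVx : 0 < O.valuation x := lt_trans zero_lt_one hx1
  -- the two radii
  obtain ⟨r, hr, hr'⟩ := common2 (O := O) (div_ne_zero hφ0 hx0)
    (mul_ne_zero he (mul_ne_zero hφ0 hφ0))
  obtain ⟨δ, hδ, h1⟩ := hc r hr
  refine ⟨δ, hδ, fun u ψ hu hn => ?_⟩
  have h2 := hr' _ _ (h1 u ψ hu hn)
  have h3 := (near_iff (div_ne_zero hφ0 hx0)).1 h2.1
  have h4 := (near_iff (mul_ne_zero he (mul_ne_zero hφ0 hφ0))).1 h2.2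
  have h5 : O.valuation (ψ c - φ c) < O.valuation (φ c) := by
    refine h3.trans_lt ?_
    rw [map_div₀, div_lt_iff₀ hVx]
    exact lt_mul_of_one_lt_right hVφ hx1
  have h6 : O.valuation (ψ c) = O.valuation (φ c) := by
    have := Valuation.map_add_eq_of_lt_left O.valuation h5
    rwa [add_sub_cancel] at this
  have hψ0 : ψ c ≠ 0 := by
    intro h
    exact hc0 ((map_eq_zero ψ).1 h)
  rw [near_iff he, map_inv₀, map_inv₀]
  have e3 : (ψ c)⁻¹ - (φ c)⁻¹ = -((ψ c - φ c) / (ψ c * φ c)) := by
    field_simp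
    ring
  rw [e3, Valuation.map_neg, map_div₀, map_mul, h6]
  rw [div_le_iff₀ (mul_pos hVφ hVφ), ← map_mul, ← map_mul]
  exact h4

theorem main : St_RAT := by
  intro L _ O k hk
  constructor
  · intro s hs
    have htr : Transcendental k s := fun h => hs (hk s h)
    have hinj : Function.Injective (aeval s : k[X] →ₐ[k] L) :=
      transcendental_iff_injective.1 htr
    refine ⟨RatFunc.liftAlgHom (aeval s : k[X] →ₐ[k] L) ?_, ?_⟩
    · intro q hq
      rw [Submonoid.mem_comap, mem_nonZeroDivisors_iff_ne_zero]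
      intro h
      rw [mem_nonZeroDivisors_iff_ne_zero] at hq
      exact hq (hinj (by rw [h, map_zero]))
    · rw [← RatFunc.algebraMap_X, RatFunc.liftAlgHom_apply]
      simp
  · intro s φ hφ c e he
    subst hφ
    have hpol : ∀ q : k[X], Cont O φ (algebraMap k[X] (RatFunc k) q) := by
      intro q
      induction q using Polynomial.induction_on' with
      | add p q hp hq =>
        rw [map_add]
        exact hp.add hq
      | monomial n a =>
        rw [← C_mul_X_pow_eq_monomial, map_mul, map_pow]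
        refine Cont.mul ?_ ?_
        · intro e he
          refine ⟨1, one_ne_zero, fun u ψ _ _ => ?_⟩
          have h1 : algebraMap k[X] (RatFunc k) (C a) = algebraMap k (RatFunc k) a := by
            rw [RatFunc.algebraMap_C]
            rfl
          rw [h1, AlgHom.commutes, AlgHom.commutes]
          exact Near.refl _ _
        · induction n with
          | zero =>
            rw [pow_zero]
            intro e he
            refine ⟨1, one_ne_zero, fun u ψ _ _ => ?_⟩
            rw [map_one, map_one]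
            exact Near.refl _ _
          | succ n ih =>
            rw [pow_succ]
            refine ih.mul ?_
            intro e he
            refine ⟨e, he, fun u ψ hu hn => ?_⟩
            rw [RatFunc.algebraMap_X, hu]
            exact hn
    have hall : Cont O φ c := by
      induction c using RatFunc.induction_on with
      | f p q hq =>
        rw [div_eq_mul_inv]
        refine (hpol p).mul ((hpol q).inv ?_)
        intro h
        exact hq ((map_eq_zero_iff _ (RatFunc.algebraMap_injective k)).1 h)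
    exact hall e he

end Pool.Agent.Helper78.XF.RAT
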